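import Pool.Agent.U234.RP.Moment
import Pool.Agent.N825.FC.Fin

/-! Record prime gaps and random members of linear families. -/

set_option autoImplicit false

namespace Pool.Agent.U234.RP

open Finset
open Pool.Agent.U234.DS (F)
open Pool.Agent.N825.FC (Many crit)

/-- **Linear families.** -/
theorem family (r : ℕ) (hr : 1 ≤ r) (ε : ℝ) (hε : 0 < ε) (hε1 : ε ≤ 1) :
    ∃ κ : ℝ, 0 < κ ∧ ∃ δ : ℝ, 0 < δ ∧ ∃ P₀ : ℝ, ∀ (P : ℕ) [Fact P.Prime], P₀ ≤ P →
    ∀ (ι Ω : Type) [Fintype Ω] [AddCommGroup Ω] (v : Ω →+ (ι → Fin r → ZMod P)) (s : Finset ι)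
      (l : ℕ), 1 ≤ l → l < P →
    (∀ T ⊆ s, T.card ≤ 2 * l → ∀ g : ι → Fin r → ZMod P, ∃ ω, ∀ i ∈ T, v ω i = g i) →
    (P : ℝ) ^ ((r : ℝ) / l + 3 * ε) ≤ s.card →
    ∀ B : Finset Ω, (∀ ω ∈ B, ¬ Many κ ε δ P s (v ω)) →
    (B.card : ℝ) ≤ l.factorial * (P : ℝ) ^ (-(l * ε)) * Fintype.card Ω := by
  obtain ⟨κ, hκ, δ, hδ, P₀, H⟩ := crit r hr ε hε hε1
  refine ⟨κ, hκ, δ, hδ, P₀, fun P _ hP ι Ω _ _ v s l hl hlP hv hs B hB => ?_⟩
  have hPr : (0 : ℝ) < P := by exact_mod_cast (Fact.out : P.Prime).pos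
  have hl' : (0 : ℝ) < l := by exact_mod_cast hl
  have hc : (0 : ℝ) < s.card := lt_of_lt_of_le (by positivity) hs
  have hne : s.Nonempty := card_pos.1 (by exact_mod_cast hc)
  have h1 := few s v hlP hv hne (η := (P : ℝ) ^ (-ε)) (by positivity) B fun ω hω => by
    by_contra hcon
    push Not at hcon
    exact hB ω hω (H P hP ι s (v ω) hne fun h hh => hcon h hh)
  have h2 : (P : ℝ) ^ r * (P : ℝ) ^ (l * ε) ≤
      (s.card : ℝ) ^ l * ((P : ℝ) ^ (-ε)) ^ (2 * l) := by
    have h3 : (P : ℝ) ^ r * (P : ℝ) ^ (3 * l * ε) ≤ (s.card : ℝ) ^ l := by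
      calc (P : ℝ) ^ r * (P : ℝ) ^ (3 * l * ε) = ((P : ℝ) ^ ((r : ℝ) / l + 3 * ε)) ^ l := by
            rw [← Real.rpow_natCast, ← Real.rpow_natCast, ← Real.rpow_mul hPr.le,
              ← Real.rpow_add hPr]
            congr 1
            field_simp
        _ ≤ _ := pow_le_pow_left₀ (by positivity) hs l
    have h4 : ((P : ℝ) ^ (-ε)) ^ (2 * l) = (P : ℝ) ^ (-(2 * l * ε)) := by
      rw [← Real.rpow_natCast, ← Real.rpow_mul hPr.le]
      congr 1
      push_cast
      ring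
    rw [h4]
    calc (P : ℝ) ^ r * (P : ℝ) ^ (l * ε) =
        ((P : ℝ) ^ r * (P : ℝ) ^ (3 * l * ε)) * (P : ℝ) ^ (-(2 * l * ε)) := by
          rw [mul_assoc, ← Real.rpow_add hPr]
          congr 2
          ring
      _ ≤ _ := mul_le_mul_of_nonneg_right h3 (by positivity)
  have h5 : ((B.card : ℝ) * (P : ℝ) ^ (l * ε)) * (P : ℝ) ^ r ≤
      (l.factorial * Fintype.card Ω) * (P : ℝ) ^ r := by
    calc ((B.card : ℝ) * (P : ℝ) ^ (l * ε)) * (P : ℝ) ^ r =
        (B.card : ℝ) * ((P : ℝ) ^ r * (P : ℝ) ^ (l * ε)) := by ring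
      _ ≤ _ := (mul_le_mul_of_nonneg_left h2 (by positivity)).trans h1
      _ = _ := by ring
  have h6 := le_of_mul_le_mul_right h5 (by positivity)
  calc (B.card : ℝ) = ((B.card : ℝ) * (P : ℝ) ^ (l * ε)) * (P : ℝ) ^ (-(l * ε)) := by
        rw [mul_assoc, ← Real.rpow_add hPr, add_neg_cancel, Real.rpow_zero, mul_one]
    _ ≤ (l.factorial * Fintype.card Ω) * (P : ℝ) ^ (-(l * ε)) :=
        mul_le_mul_of_nonneg_right h6 (by positivity)
    _ = _ := by ring

/-! ### Polynomials in several variables -/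

section Poly

open MvPolynomial

variable {P : ℕ} [Fact P.Prime] {m r : ℕ}

/-- The polynomials in `m` variables of total degree at most `d`. -/
abbrev Pol (P m d : ℕ) : Type := restrictTotalDegree (Fin m) (ZMod P) d

instance (P m d : ℕ) [Fact P.Prime] : Finite (Pol P m d) :=
  Module.finite_of_finite (ZMod P)

/-- The values of an `r`-tuple of polynomials. -/
noncomputable def ev (P m d r : ℕ) :
    (Fin r → Pol P m d) →+ ((Fin m → ZMod P) → Fin r → ZMod P) where
  toFun f x j := eval x (f j : MvPolynomial (Fin m) (ZMod P))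
  map_zero' := by
    funext x j
    simp
  map_add' f g := by
    funext x j
    simp

/-- A polynomial equal to `1` at `x` and to `0` at the points of `T`. -/
theorem exists_sep (x : Fin m → ZMod P) (T : Finset (Fin m → ZMod P)) (hx : x ∉ T) :
    ∃ q : MvPolynomial (Fin m) (ZMod P), q.totalDegree ≤ T.card ∧ eval x q = 1 ∧
      ∀ y ∈ T, eval y q = 0 := by
  classical
  induction T using Finset.induction_on with
  | empty => exact ⟨1, by simp, by simp, by simp⟩
  | insert z T hz ih =>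
    obtain ⟨q, h1, h2, h3⟩ := ih fun h => hx (mem_insert_of_mem h)
    obtain ⟨k, hk⟩ : ∃ k, x k ≠ z k := by
      by_contra hcon
      push Not at hcon
      exact hx (by rw [funext hcon]; exact mem_insert_self _ _)
    have hk' : x k - z k ≠ 0 := sub_ne_zero.2 hk
    refine ⟨q * (C ((x k - z k)⁻¹) * (X k - C (z k))), ?_, ?_, ?_⟩
    · rw [card_insert_of_notMem hz]
      refine (totalDegree_mul _ _).trans (add_le_add h1 ?_)
      refine (totalDegree_mul _ _).trans ?_
      rw [totalDegree_C, zero_add]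
      refine (totalDegree_sub_C_le _ _).trans ?_
      rw [totalDegree_X]
    · simp [h2, inv_mul_cancel₀ hk']
    · intro y hy
      rcases mem_insert.1 hy with rfl | hy
      · simp
      · simp [h3 y hy]

theorem interp (d : ℕ) (T : Finset (Fin m → ZMod P)) (hT : T.card ≤ d + 1)
    (g : (Fin m → ZMod P) → Fin r → ZMod P) :
    ∃ f : Fin r → Pol P m d, ∀ x ∈ T, ev P m d r f x = g x := by
  classical
  have h1 : ∀ x ∈ T, ∃ q : MvPolynomial (Fin m) (ZMod P), q.totalDegree ≤ d ∧ eval x q = 1 ∧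
      ∀ y ∈ T, y ≠ x → eval y q = 0 := by
    intro x hx
    obtain ⟨q, h1, h2, h3⟩ := exists_sep x (T.erase x) (notMem_erase x T)
    refine ⟨q, h1.trans ?_, h2, fun y hy hne => h3 y (mem_erase.2 ⟨hne, hy⟩)⟩
    rw [card_erase_of_mem hx]
    omega
  choose! q hq1 hq2 hq3 using h1
  have h2 : ∀ j : Fin r, (∑ x ∈ T, g x j • q x) ∈ restrictTotalDegree (Fin m) (ZMod P) d :=
    fun j => Submodule.sum_mem _ fun x hx => Submodule.smul_mem _ _
      ((mem_restrictTotalDegree _ _ _).2 (hq1 x hx))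
  refine ⟨fun j => ⟨_, h2 j⟩, fun x hx => ?_⟩
  funext j
  change eval x (∑ x ∈ T, g x j • q x) = g x j
  rw [map_sum, sum_eq_single x]
  · rw [smul_eval, hq2 x hx, mul_one]
  · intro y hy hne
    rw [smul_eval, hq3 y hy x hx hne.symm, mul_zero]
  · intro h
    exact absurd hx h

end Poly

end Pool.Agent.U234.RP
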