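import Pool.Agent.U234.DS.Basic

/-! Moments of exponential sums over random members of linear families. -/

set_option autoImplicit false

namespace Pool.Agent.U234.RP

open Finset
open Pool.Agent.U234.DS (F char_sum conj_char norm_char)

variable {P : ℕ} [Fact P.Prime] {r : ℕ}

/-- Two maps with equally large fibres differ by a permutation. -/
theorem exists_perm {α β : Type*} [Fintype α] [DecidableEq β] (a b : α → β)
    (h : ∀ i, (univ.filter fun t => a t = i).card = (univ.filter fun t => b t = i).card) :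
    ∃ σ : Equiv.Perm α, ∀ t, a (σ t) = b t := by
  classical
  have h1 : ∀ i, Nonempty ({t // b t = i} ≃ {t // a t = i}) := by
    intro i
    refine ⟨Fintype.equivOfCardEq ?_⟩
    rw [Fintype.card_subtype, Fintype.card_subtype]
    exact (h i).symm
  let e : ∀ i, {t // b t = i} ≃ {t // a t = i} := fun i => (h1 i).some
  refine ⟨(Equiv.sigmaFiberEquiv b).symm.trans ((Equiv.sigmaCongrRight e).trans
    (Equiv.sigmaFiberEquiv a)), fun t => ?_⟩
  exact (e (b t) ⟨t, rfl⟩).2

/-- The difference of the multiplicities. -/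
def mult {ι : Type} [DecidableEq ι] {l : ℕ} (w : (Fin l → ι) × (Fin l → ι)) (i : ι) : ZMod P :=
  ((univ.filter fun t => w.1 t = i).card : ZMod P) - ((univ.filter fun t => w.2 t = i).card : ZMod P)

open scoped Classical in
theorem count_le {ι : Type} [DecidableEq ι] (s : Finset ι) {l : ℕ} (hl : l < P) :
    ((Fintype.piFinset (fun _ : Fin l => s) ×ˢ Fintype.piFinset (fun _ : Fin l => s)).filter
      fun w => ∀ i, (mult w i : ZMod P) = 0).card ≤ l.factorial * s.card ^ l := by
  classical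
  have h1 : ((Fintype.piFinset (fun _ : Fin l => s) ×ˢ Fintype.piFinset (fun _ : Fin l => s)).filter
      fun w => ∀ i, (mult w i : ZMod P) = 0) ⊆
      ((Fintype.piFinset (fun _ : Fin l => s)) ×ˢ (univ : Finset (Equiv.Perm (Fin l)))).image
        fun x => (x.1, fun t => x.1 (x.2 t)) := by
    intro w hw
    obtain ⟨h2, h3⟩ := mem_filter.1 hw
    have h4 : ∀ i, (univ.filter fun t => w.1 t = i).card = (univ.filter fun t => w.2 t = i).card := by
      intro i
      have h5 := h3 i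
      unfold mult at h5
      rw [sub_eq_zero, ZMod.natCast_eq_natCast_iff'] at h5
      have h6 : (univ.filter fun t => w.1 t = i).card < P :=
        ((card_le_univ _).trans (by simp)).trans_lt hl
      have h7 : (univ.filter fun t => w.2 t = i).card < P :=
        ((card_le_univ _).trans (by simp)).trans_lt hl
      rwa [Nat.mod_eq_of_lt h6, Nat.mod_eq_of_lt h7] at h5
    obtain ⟨σ, hσ⟩ := exists_perm w.1 w.2 h4
    rw [mem_image]
    refine ⟨(w.1, σ), mem_product.2 ⟨(mem_product.1 h2).1, mem_univ _⟩, ?_⟩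
    exact Prod.ext rfl (funext hσ)
  refine (card_le_card h1).trans (card_image_le.trans ?_)
  rw [card_product, card_univ, Fintype.card_perm, Fintype.card_fin, Fintype.card_piFinset_const,
    mul_comm]

/-- The sums `∑ c_i v_i` with few nonzero coefficients. -/
theorem sum_mult {ι : Type} [DecidableEq ι] (s : Finset ι) {l : ℕ} (w : (Fin l → ι) × (Fin l → ι))
    (hw : w ∈ Fintype.piFinset (fun _ : Fin l => s) ×ˢ Fintype.piFinset (fun _ : Fin l => s))
    (u : ι → ZMod P) :
    ∑ i ∈ s, mult w i * u i = ∑ t, u (w.1 t) - ∑ t, u (w.2 t) := by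
  classical
  have key : ∀ a : Fin l → ι, (∀ t, a t ∈ s) →
      ∑ i ∈ s, ((univ.filter fun t => a t = i).card : ZMod P) * u i = ∑ t, u (a t) := by
    intro a ha
    rw [← sum_fiberwise_of_maps_to (s := univ) (t := s) (g := a) (fun t _ => ha t)]
    refine sum_congr rfl fun i _ => ?_
    rw [sum_congr rfl (g := fun _ => u i), sum_const, nsmul_eq_mul]
    intro t ht
    rw [(mem_filter.1 ht).2]
  unfold mult
  simp only [sub_mul]
  rw [sum_sub_distrib, key w.1 (Fintype.mem_piFinset.1 (mem_product.1 hw).1),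
    key w.2 (Fintype.mem_piFinset.1 (mem_product.1 hw).2)]

/-- `|F| ^ (2 l)` as a sum of characters -/
theorem norm_pow {ι : Type} [DecidableEq ι] (s : Finset ι) (v : ι → Fin r → ZMod P)
    (h : Fin r → ZMod P) (l : ℕ) :
    ((‖F s v h‖ ^ (2 * l) : ℝ) : ℂ) =
      ∑ w ∈ Fintype.piFinset (fun _ : Fin l => s) ×ˢ Fintype.piFinset (fun _ : Fin l => s),
        (ZMod.stdAddChar (∑ i ∈ s, mult w i * ∑ j, h j * v i j) : ℂ) := by
  classical
  have h1 : F s v h ^ l = ∑ a ∈ Fintype.piFinset (fun _ : Fin l => s),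
      (ZMod.stdAddChar (∑ t, ∑ j, h j * v (a t) j) : ℂ) := by
    unfold F
    have h2 : (∑ i ∈ s, (ZMod.stdAddChar (∑ j, h j * v i j) : ℂ)) ^ l =
        ∏ _t : Fin l, ∑ i ∈ s, (ZMod.stdAddChar (∑ j, h j * v i j) : ℂ) := by
      rw [prod_const, card_univ, Fintype.card_fin]
    rw [h2, Finset.prod_univ_sum]
    exact sum_congr rfl fun a _ => (char_sum _ _).symm
  have h2 : ((‖F s v h‖ ^ (2 * l) : ℝ) : ℂ) = F s v h ^ l * (starRingEnd ℂ) (F s v h ^ l) := by
    rw [Complex.mul_conj, Complex.normSq_eq_norm_sq, _root_.norm_pow, ← pow_mul, mul_comm l 2]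
  rw [h2, h1, map_sum, sum_mul_sum, ← sum_product']
  refine sum_congr rfl fun w hw => ?_
  rw [conj_char, ← AddChar.map_add_eq_mul, sum_mult s w hw, sub_eq_add_neg]

/-- **Moments.** -/
theorem moment {ι Ω : Type} [Fintype Ω] (s : Finset ι) (v : Ω → ι → Fin r → ZMod P)
    {h : Fin r → ZMod P} {l : ℕ} (hl : l < P)
    (hind : ∀ c : ι → ZMod P, (∃ i ∈ s, c i ≠ 0) → (s.filter fun i => c i ≠ 0).card ≤ 2 * l →
      ∑ ω, (ZMod.stdAddChar (∑ i ∈ s, c i * ∑ j, h j * v ω i j) : ℂ) = 0) :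
    ∑ ω, ‖F s (v ω) h‖ ^ (2 * l) ≤ Fintype.card Ω * (l.factorial * (s.card : ℝ) ^ l) := by
  classical
  set W := Fintype.piFinset (fun _ : Fin l => s) ×ˢ Fintype.piFinset (fun _ : Fin l => s) with hW
  have h1 : ((∑ ω, ‖F s (v ω) h‖ ^ (2 * l) : ℝ) : ℂ) =
      ((Fintype.card Ω * (W.filter fun w => ∀ i, (mult w i : ZMod P) = 0).card : ℝ) : ℂ) := by
    have h2 : ((∑ ω, ‖F s (v ω) h‖ ^ (2 * l) : ℝ) : ℂ) = ∑ ω, ((‖F s (v ω) h‖ ^ (2 * l) : ℝ) : ℂ) := by
      push_cast
      rfl
    rw [h2, sum_congr rfl fun ω _ => norm_pow s (v ω) h l, sum_comm]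
    have h3 : ∀ w ∈ W, ∑ ω, (ZMod.stdAddChar (∑ i ∈ s, mult w i * ∑ j, h j * v ω i j) : ℂ) =
        if ∀ i, (mult w i : ZMod P) = 0 then (Fintype.card Ω : ℂ) else 0 := by
      intro w hw
      split_ifs with h0
      · simp [h0]
      · push Not at h0
        obtain ⟨i, hi⟩ := h0
        have hsup : ∀ i, (mult w i : ZMod P) ≠ 0 →
            i ∈ (univ : Finset (Fin l)).image w.1 ∪ (univ : Finset (Fin l)).image w.2 := by
          intro i hi
          by_contra hcon
          rw [mem_union, not_or] at hcon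
          apply hi
          unfold mult
          rw [filter_eq_empty_iff.2, filter_eq_empty_iff.2]
          · simp
          · intro t _ ht
            exact hcon.2 (mem_image.2 ⟨t, mem_univ _, ht⟩)
          · intro t _ ht
            exact hcon.1 (mem_image.2 ⟨t, mem_univ _, ht⟩)
        refine hind (mult w) ⟨i, ?_, hi⟩ ?_
        · have h4 := hsup i hi
          rw [mem_union, mem_image, mem_image] at h4
          rcases h4 with ⟨t, _, rfl⟩ | ⟨t, _, rfl⟩
          · exact Fintype.mem_piFinset.1 (mem_product.1 hw).1 t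
          · exact Fintype.mem_piFinset.1 (mem_product.1 hw).2 t
        · have h4 : (s.filter fun i => (mult w i : ZMod P) ≠ 0) ⊆
              (univ : Finset (Fin l)).image w.1 ∪ (univ : Finset (Fin l)).image w.2 :=
            fun i hi => hsup i (mem_filter.1 hi).2
          refine (card_le_card h4).trans ((card_union_le _ _).trans ?_)
          have h5 := card_image_le (s := (univ : Finset (Fin l))) (f := w.1)
          have h6 := card_image_le (s := (univ : Finset (Fin l))) (f := w.2)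
          simp only [card_univ, Fintype.card_fin] at h5 h6
          omega
    rw [sum_congr rfl h3, ← sum_filter, sum_const, nsmul_eq_mul]
    push_cast
    ring
  have h2 : ∑ ω, ‖F s (v ω) h‖ ^ (2 * l) =
      Fintype.card Ω * (W.filter fun w => ∀ i, (mult w i : ZMod P) = 0).card := by exact_mod_cast h1
  rw [h2]
  have h3 : ((W.filter fun w => ∀ i, (mult w i : ZMod P) = 0).card : ℝ) ≤
      l.factorial * (s.card : ℝ) ^ l := by exact_mod_cast count_le s hl
  exact mul_le_mul_of_nonneg_left h3 (by positivity)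

/-- The character sums over linear families. -/
theorem linear {ι Ω : Type} [Fintype Ω] [AddCommGroup Ω] (s : Finset ι)
    (v : Ω →+ (ι → Fin r → ZMod P)) {h : Fin r → ZMod P} (hh : h ≠ 0) {k : ℕ}
    (hv : ∀ T ⊆ s, T.card ≤ k → ∀ g : ι → Fin r → ZMod P, ∃ ω, ∀ i ∈ T, v ω i = g i)
    (c : ι → ZMod P) (hc : ∃ i ∈ s, c i ≠ 0) (hck : (s.filter fun i => c i ≠ 0).card ≤ k) :
    ∑ ω, (ZMod.stdAddChar (∑ i ∈ s, c i * ∑ j, h j * v ω i j) : ℂ) = 0 := by
  classical
  obtain ⟨i₀, hi₀, hci⟩ := hc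
  obtain ⟨j₀, hj₀⟩ : ∃ j, h j ≠ 0 := by
    by_contra hcon
    push Not at hcon
    exact hh (funext hcon)
  obtain ⟨ω₀, hω₀⟩ := hv (s.filter fun i => c i ≠ 0) (filter_subset _ _) hck
    (Function.update 0 i₀ (Function.update 0 j₀ ((c i₀ * h j₀)⁻¹)))
  have h1 : ∑ i ∈ s, c i * ∑ j, h j * v ω₀ i j = 1 := by
    rw [sum_eq_single i₀, sum_eq_single j₀]
    · rw [hω₀ i₀ (mem_filter.2 ⟨hi₀, hci⟩), Function.update_self, Function.update_self,
        ← mul_assoc, mul_inv_cancel₀ (mul_ne_zero hci hj₀)]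
    · intro j _ hj
      rw [hω₀ i₀ (mem_filter.2 ⟨hi₀, hci⟩), Function.update_self, Function.update_of_ne hj]
      simp
    · intro h
      exact absurd (mem_univ _) h
    · intro i hi hne
      by_cases hci' : c i = 0
      · rw [hci', zero_mul]
      · rw [hω₀ i (mem_filter.2 ⟨hi, hci'⟩), Function.update_of_ne hne]
        simp
    · intro h
      exact absurd hi₀ h
  set φ : Ω → ZMod P := fun ω => ∑ i ∈ s, c i * ∑ j, h j * v ω i j with hφ
  have hadd : ∀ ω ω', φ (ω + ω') = φ ω + φ ω' := by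
    intro ω ω'
    simp only [hφ, map_add, Pi.add_apply, mul_add, sum_add_distrib]
  have h2 : ∑ ω, (ZMod.stdAddChar (φ ω) : ℂ) = ZMod.stdAddChar (1 : ZMod P) *
      ∑ ω, (ZMod.stdAddChar (φ ω) : ℂ) := by
    rw [mul_sum, ← Equiv.sum_comp (Equiv.addLeft ω₀)]
    refine sum_congr rfl fun ω _ => ?_
    rw [Equiv.coe_addLeft, hadd, AddChar.map_add_eq_mul]
    congr 2
  have h3 : (ZMod.stdAddChar (1 : ZMod P) : ℂ) ≠ 1 := by
    intro hcon
    have h4 : (ZMod.stdAddChar (1 : ZMod P) : ℂ) = ZMod.stdAddChar (0 : ZMod P) := by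
      rw [hcon, AddChar.map_zero_eq_one]
    have h5 := ZMod.injective_stdAddChar h4
    exact one_ne_zero h5
  have h4 : (1 - (ZMod.stdAddChar (1 : ZMod P) : ℂ)) * ∑ ω, (ZMod.stdAddChar (φ ω) : ℂ) = 0 := by
    rw [sub_mul, one_mul, ← h2, sub_self]
  rcases mul_eq_zero.1 h4 with h5 | h5
  · exact absurd (sub_eq_zero.1 h5).symm h3
  · exact h5

/-- **Few large exponential sums.** -/
theorem few {ι Ω : Type} [Fintype Ω] [AddCommGroup Ω] (s : Finset ι)
    (v : Ω →+ (ι → Fin r → ZMod P)) {l : ℕ} (hl : l < P)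
    (hv : ∀ T ⊆ s, T.card ≤ 2 * l → ∀ g : ι → Fin r → ZMod P, ∃ ω, ∀ i ∈ T, v ω i = g i)
    (hs : s.Nonempty) {η : ℝ} (hη : 0 < η) (B : Finset Ω)
    (hB : ∀ ω ∈ B, ∃ h : Fin r → ZMod P, h ≠ 0 ∧ s.card * η < ‖F s (v ω) h‖) :
    (B.card : ℝ) * ((s.card : ℝ) ^ l * η ^ (2 * l)) ≤
      l.factorial * (P : ℝ) ^ r * Fintype.card Ω := by
  classical
  have hc : (0 : ℝ) < s.card := by exact_mod_cast hs.card_pos
  have h1 : (B.card : ℝ) * (s.card * η) ^ (2 * l) ≤
      ∑ h ∈ (univ : Finset (Fin r → ZMod P)).filter (fun h => h ≠ 0),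
        ∑ ω, ‖F s (v ω) h‖ ^ (2 * l) := by
    rw [sum_comm]
    calc (B.card : ℝ) * (s.card * η) ^ (2 * l) = ∑ ω ∈ B, (s.card * η) ^ (2 * l) := by
          rw [sum_const, nsmul_eq_mul]
      _ ≤ ∑ ω ∈ B, ∑ h ∈ (univ : Finset (Fin r → ZMod P)).filter (fun h => h ≠ 0),
            ‖F s (v ω) h‖ ^ (2 * l) := by
          refine sum_le_sum fun ω hω => ?_
          obtain ⟨h, hh, h2⟩ := hB ω hω
          refine le_trans ?_ (single_le_sum (f := fun h => ‖F s (v ω) h‖ ^ (2 * l))
            (fun _ _ => by positivity) (mem_filter.2 ⟨mem_univ h, hh⟩))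
          exact pow_le_pow_left₀ (by positivity) h2.le _
      _ ≤ _ := sum_le_sum_of_subset_of_nonneg (subset_univ _) fun _ _ _ =>
          sum_nonneg fun _ _ => by positivity
  have h2 : ∑ h ∈ (univ : Finset (Fin r → ZMod P)).filter (fun h => h ≠ 0),
        ∑ ω, ‖F s (v ω) h‖ ^ (2 * l) ≤
      (P : ℝ) ^ r * (Fintype.card Ω * (l.factorial * (s.card : ℝ) ^ l)) := by
    have h3 : ∀ h ∈ (univ : Finset (Fin r → ZMod P)).filter (fun h => h ≠ 0),
        ∑ ω, ‖F s (v ω) h‖ ^ (2 * l) ≤ Fintype.card Ω * (l.factorial * (s.card : ℝ) ^ l) := by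
      intro h hh
      exact moment s (fun ω => v ω) hl fun c hc hck =>
        linear s v (mem_filter.1 hh).2 hv c hc hck
    refine (sum_le_card_nsmul _ _ _ h3).trans ?_
    rw [nsmul_eq_mul]
    refine mul_le_mul_of_nonneg_right ?_ (by positivity)
    have h4 := card_le_univ ((univ : Finset (Fin r → ZMod P)).filter (fun h => h ≠ 0))
    rw [Fintype.card_fun, ZMod.card, Fintype.card_fin] at h4
    exact_mod_cast h4
  have h3 := h1.trans h2
  have h4 : (0 : ℝ) < (s.card : ℝ) ^ l := by positivity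
  have h5 : ((B.card : ℝ) * ((s.card : ℝ) ^ l * η ^ (2 * l))) * (s.card : ℝ) ^ l ≤
      (l.factorial * (P : ℝ) ^ r * Fintype.card Ω) * (s.card : ℝ) ^ l := by
    calc ((B.card : ℝ) * ((s.card : ℝ) ^ l * η ^ (2 * l))) * (s.card : ℝ) ^ l =
        (B.card : ℝ) * (s.card * η) ^ (2 * l) := by rw [mul_pow, two_mul, pow_add]; ring
      _ ≤ _ := h3
      _ = _ := by ring
  exact le_of_mul_le_mul_right h5 h4

end Pool.Agent.U234.RP
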